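import Pool.Agent.Helper1.LG2.OnePos2

set_option autoImplicit false

/-!
`LG.OnePos` from `LG2.OnePos2` (with `J' = 0`, `i1 = 0`, `J1 = J`, `t1 = t`).
-/

open Finset

namespace Pool.Agent.Helper12.LGx

open Pool.Agent.Helper1.LG (Dt Ex Reg tt Lt Fn wd OnePos)
open Pool.Agent.Helper1.LG2 (Lb Fb wb md onePos2)

/-- Letters. -/
def tr {J : ℕ} : Lt J → Lb 0 J
  | .one => .one
  | .maj => .mj
  | .md j => .ks j

theorem tr_Fn {ι : Type} [Fintype ι] [DecidableEq ι] {J : ℕ} (D : Dt ι) (l : Lt J) :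
    Fn D l = Fb 0 D (tr l) := by
  funext S
  rcases l with _ | _ | j
  · rfl
  · show ∏ i ∈ range D.I, D.A i S = ∏ i ∈ Ico 0 D.I, D.A i S
    rw [Finset.range_eq_Ico]
  · show (1 / (J : ℝ)) * ((D.A j S - D.a j) / (1 - D.a j)) * ∏ i ∈ Ioo (j : ℕ) D.I, D.A i S =
      (1 / (J : ℝ)) * (((D.A (0 + (j : ℕ)) S - D.a (0 + (j : ℕ))) / (1 - D.a (0 + (j : ℕ)))) *
        ∏ i ∈ Ioo (0 + (j : ℕ)) D.I, D.A i S)
    rw [zero_add]
    ring

theorem onePos : OnePos := by
  intro ι _ _ D J t h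
  have h' : Reg D (0 + J) t := by rw [zero_add]; exact h
  have ht : ∑ i ∈ Ico 0 D.I, tt (D.r i) ≤ t := by
    rw [← Finset.range_eq_Ico]
    exact h.tail
  obtain ⟨c1, c2, _, _, c5, _, _, c8, c9⟩ :=
    onePos2 ι D 0 J 0 t t le_rfl h.J_pos h' ht h.t_le
  refine ⟨fun j => ?_, fun i j hij => ?_, fun j => ?_, fun W hW => ?_, fun s => ?_⟩
  · rw [tr_Fn]
    exact c1 j
  · rw [tr_Fn, tr_Fn]
    exact c2 i j hij
  · rw [tr_Fn]
    have := c5 j
    rw [zero_add] at this
    exact this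
  · have e : wd D W = wb 0 D (fun l => tr (W l)) := by
      funext S
      unfold wd wb
      refine Finset.prod_congr rfl fun l _ => ?_
      rw [tr_Fn]
    have hne : (fun l => tr (W l)) ≠ Pool.Agent.Helper1.LG2.blank 0 J := by
      intro hc
      apply hW
      funext l
      have h1 : tr (W l) = .one := congrFun hc l
      rcases hl : W l with _ | _ | j
      · rfl
      · rw [hl] at h1
        exact absurd h1 (by simp [tr])
      · rw [hl] at h1
        exact absurd h1 (by simp [tr])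
    have := c8 _ hne
    rw [e]
    simpa using this
  · have h1 := c9 s
    have e1 : D.Plow 0 = D.Pall := by
      unfold Dt.Plow Dt.Pall
      rw [Finset.range_eq_Ico]
    rw [e1] at h1
    simp only [tr_Fn]
    exact h1

end Pool.Agent.Helper12.LGx
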